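import Mathlib
import Pool.Agent.H590.NL.Stm

/-!
# Volume of the unit ball (`S_VK`), after the planar file `Pool/Agent/H331/PL/VK.lean`
-/

set_option autoImplicit false

open MeasureTheory Filter Topology Set
open scoped BigOperators ENNReal

namespace Pool.Agent.H32.NL

open H590NL

theorem ip_add {n : ℕ} (v x y : V n) : ip v (x + y) = ip v x + ip v y := by
  simp only [ip, Pi.add_apply, mul_add, Finset.sum_add_distrib]

theorem ip_neg {n : ℕ} (v x : V n) : ip v (-x) = -ip v x := by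
  simp only [ip, Pi.neg_apply, mul_neg, Finset.sum_neg_distrib]

theorem ip_smul {n : ℕ} (v x : V n) (r : ℝ) : ip v (r • x) = r * ip v x := by
  simp only [ip, Pi.smul_apply, smul_eq_mul, Finset.mul_sum]
  exact Finset.sum_congr rfl fun i _ => by ring

theorem ip_zero {n : ℕ} (v : V n) : ip v 0 = 0 := by
  simp only [ip, Pi.zero_apply, mul_zero, Finset.sum_const_zero]

section

variable {n : ℕ} {κ : Type} [Fintype κ]

/-- the gauge -/
noncomputable def gg (p : ℝ) (v : κ → V n) (x : V n) : ℝ := (∑ k, |ip (v k) x| ^ p) ^ (1 / p)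

theorem sum_nn (p : ℝ) (v : κ → V n) (x : V n) : 0 ≤ ∑ k, |ip (v k) x| ^ p :=
  Finset.sum_nonneg fun _ _ => Real.rpow_nonneg (abs_nonneg _) _

theorem gg_zero {p : ℝ} (hp : 1 < p) (v : κ → V n) : gg p v 0 = 0 := by
  have h0 : (0 : ℝ) < p := by linarith
  have h1 : ∑ k, |ip (v k) 0| ^ p = 0 := by
    apply Finset.sum_eq_zero
    intro k _
    rw [ip_zero, abs_zero, Real.zero_rpow h0.ne']
  rw [gg, h1, Real.zero_rpow (by positivity)]

theorem gg_neg (p : ℝ) (v : κ → V n) (x : V n) : gg p v (-x) = gg p v x := by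
  simp only [gg, ip_neg, abs_neg]

theorem gg_add {p : ℝ} (hp : 1 < p) (v : κ → V n) (x y : V n) :
    gg p v (x + y) ≤ gg p v x + gg p v y := by
  simp only [gg, ip_add]
  exact Real.Lp_add_le Finset.univ (fun k => ip (v k) x) (fun k => ip (v k) y) hp.le

theorem gg_eq {p : ℝ} (hp : 1 < p) {v : κ → V n} (hv : Spans v) {x : V n} (h : gg p v x = 0) :
    x = 0 := by
  have h0 : (0 : ℝ) < p := by linarith
  have h1 : ∑ k, |ip (v k) x| ^ p = 0 := by
    rcases (Real.rpow_eq_zero_iff_of_nonneg (sum_nn p v x)).1 h with ⟨h2, _⟩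
    exact h2
  have h2 : ∀ k, ip (v k) x = 0 := by
    intro k
    have h3 := (Finset.sum_eq_zero_iff_of_nonneg
      (fun k _ => Real.rpow_nonneg (abs_nonneg (ip (v k) x)) p)).1 h1 k (Finset.mem_univ k)
    have h4 := ((Real.rpow_eq_zero_iff_of_nonneg (abs_nonneg _)).1 h3).1
    exact abs_eq_zero.1 h4
  obtain ⟨f, hf⟩ := hv
  refine Matrix.eq_zero_of_mulVec_eq_zero hf ?_
  funext i
  exact h2 (f i)

theorem gg_smul {p : ℝ} (hp : 1 < p) (v : κ → V n) (r : ℝ) (x : V n) :
    gg p v (r • x) ≤ |r| * gg p v x := by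
  have h0 : (0 : ℝ) < p := by linarith
  have h1 : ∑ k, |ip (v k) (r • x)| ^ p = |r| ^ p * ∑ k, |ip (v k) x| ^ p := by
    rw [Finset.mul_sum]
    refine Finset.sum_congr rfl fun k _ => ?_
    rw [ip_smul, abs_mul, Real.mul_rpow (abs_nonneg _) (abs_nonneg _)]
  rw [gg, h1, Real.mul_rpow (Real.rpow_nonneg (abs_nonneg _) _) (sum_nn p v x), ← Real.rpow_mul (abs_nonneg _),
    mul_one_div_cancel h0.ne', Real.rpow_one]
  exact le_rfl

theorem gg_pow {p : ℝ} (hp : 1 < p) (v : κ → V n) (x : V n) : gg p v x ^ p = Ph p v one x := by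
  have h0 : (0 : ℝ) < p := by linarith
  rw [gg, ← Real.rpow_mul (sum_nn p v x), one_div_mul_cancel h0.ne', Real.rpow_one, Ph]
  refine Finset.sum_congr rfl fun k _ => ?_
  rw [one, one_mul]

end

theorem VK : S_VK := by
  intro n κ _ p hp _ v hv
  have h0 : (0 : ℝ) < p := by linarith
  have h1 : {x : V n | ∑ k, |ip (v k) x| ^ p ≤ 1} = {x : V n | gg p v x ≤ 1} := by
    ext x
    have h2 := Real.rpow_le_rpow_iff (sum_nn p v x) (zero_le_one' ℝ) (one_div_pos.2 h0)
    rw [Real.one_rpow] at h2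
    exact h2.symm
  have h5 : volume {x : V n | gg p v x ≤ 1} = volume {x : V n | gg p v x < 1} := by
    rcases Nat.eq_zero_or_pos n with hn | hn
    · subst hn
      have h6 : ∀ x : V 0, gg p v x = 0 := fun x => by
        rw [Subsingleton.elim x 0]
        exact gg_zero hp v
      simp only [h6, zero_le_one, zero_lt_one]
    · have : Nonempty (Fin n) := ⟨⟨0, hn⟩⟩
      exact measure_le_eq_lt volume (gg_zero hp v) (gg_neg p v) (gg_add hp v) (gg_eq hp hv)
        (gg_smul hp v) 1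
  rw [h1, h5, measure_lt_one_eq_integral_div_gamma volume (gg_zero hp v) (gg_neg p v)
    (gg_add hp v) (gg_eq hp hv) (gg_smul hp v) h0]
  have h2 : (fun x : V n => Real.exp (-(gg p v x) ^ p)) =
      fun x : V n => Real.exp (-(Ph p v one x)) := by
    funext x
    rw [gg_pow hp v x]
  have h3 : (Module.finrank ℝ (V n) : ℝ) = n := by
    have h4 : Module.finrank ℝ (V n) = n := Module.finrank_fin_fun ℝ
    rw [h4]
  rw [h2, h3]
  rfl

end Pool.Agent.H32.NL
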